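import Pool.Agent.MP_6a4325_al.H84.Spec3

/-!
Row ONE: representations with coefficients in a finitely generated domain of functions have
degree at most one.
-/

set_option autoImplicit false

namespace Pool.Agent.MP_6a4325_al.H75

open Pool.Agent.MP_6a4325_al.H62 Pool.Agent.MP_6a4325_al.H84 Matrix Kronecker

/-- the product of a representation with a twist of itself -/
def tw {K N ι : Type} [Field K] [Group N] [Fintype ι] [DecidableEq ι]
    (τ : N →* Matrix ι ι K) (σ : K →+* K) : N →* Matrix (ι × ι) (ι × ι) K where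
  toFun g := τ g ⊗ₖ σ.mapMatrix (τ g)
  map_one' := by rw [map_one, map_one, one_kronecker_one]
  map_mul' g h := by rw [map_mul, map_mul, mul_kronecker_mul]

theorem one3 : AiApi → SFrob → SOne := by
  intro A hF p _ K N _ _ _ _ O D hO hfg hB n τ hτ hc
  have := O.fg_iff_finiteType.1 hfg
  have key : ∀ k : ℕ, 2 ≤ n → ∃ (m : ℕ) (ρ : N →* Matrix (Fin m) (Fin m) K), k + 2 ≤ m ∧ AI ρ ∧
      ∀ i j, (fun h => ρ h i j) ∈ O := by
    intro k hn
    induction k with
    | zero => exact ⟨n, τ, hn, hτ, hc⟩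
    | succ k ih =>
      obtain ⟨m, ρ, hm, hρ, h⟩ := ih
      let f : Fin m × Fin m → O := fun x => ⟨fun g => ρ g x.1 x.2, h _ _⟩
      obtain ⟨a, ha⟩ := hF p K O (Fin m × Fin m) f
        (LinearIndependent.of_comp O.val.toLinearMap ((A.li K N _ ρ).1 hρ))
      have h1 := (ha.map' O.val.toLinearMap
        (LinearMap.ker_eq_bot.2 Subtype.val_injective)).comp _
        (Equiv.prodProdProdComm (Fin m) (Fin m) (Fin m) (Fin m)).injective
      have h2 : AI (tw ρ (iterateFrobenius K p a)) := (A.li K N _ _).2 h1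
      obtain ⟨ρ', h3, h4⟩ := A.reindex K N _ _ _ finProdFinEquiv.symm h2
      refine ⟨m * m, ρ', by nlinarith, h3, fun i j => ?_⟩
      simp only [h4]
      exact O.mul_mem (h _ _) (O.pow_mem (h _ _) (p ^ a))
  by_contra hn
  obtain ⟨m, ρ, hm, hρ, -⟩ := key D (by omega)
  have := hB K m ρ hρ
  omega

end Pool.Agent.MP_6a4325_al.H75
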